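import Pool.Agent.Q189.IB.Stm

set_option autoImplicit false

/-!
# Project IB (helper189), job LOG: the logarithmic derivative of a rational function
-/

namespace Pool.Agent.Q241.IB

open Polynomial

/-- `(X - a) P' = i P + (X - a)^(i+1) R'` for `P = (X - a)^i R` -/
theorem mul_derivative (a : ℚ) (R : ℚ[X]) (i : ℕ) :
    (X - C a) * derivative ((X - C a) ^ i * R) =
      C (i : ℚ) * ((X - C a) ^ i * R) + (X - C a) ^ (i + 1) * derivative R := by
  rw [derivative_mul, derivative_X_sub_C_pow]
  rcases i with _ | j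
  · simp
  · simp only [Nat.add_sub_cancel]
    ring

theorem key (a : ℚ) (A B P Q : ℚ[X]) (hP : P ≠ 0) (hQ : Q ≠ 0)
    (h : (X - C a) * A * (derivative P * Q - P * derivative Q) = B * P * Q) :
    ∃ z : ℤ, A.eval a * z = B.eval a := by
  obtain ⟨R, hR, hRa⟩ := exists_eq_pow_rootMultiplicity_mul_and_not_dvd P hP a
  obtain ⟨S, hS, hSa⟩ := exists_eq_pow_rootMultiplicity_mul_and_not_dvd Q hQ a
  set i := rootMultiplicity a P with hi
  set k := rootMultiplicity a Q with hk
  have e1 := mul_derivative a R i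
  have e2 := mul_derivative a S k
  rw [← hR] at e1
  rw [← hS] at e2
  have hne : (X - C a : ℚ[X]) ^ (i + k) ≠ 0 := pow_ne_zero _ (X_sub_C_ne_zero a)
  have h2 : (X - C a) ^ (i + k) * (A * ((C (i : ℚ) - C (k : ℚ)) * (R * S) +
      (X - C a) * (derivative R * S - R * derivative S))) =
      (X - C a) ^ (i + k) * (B * (R * S)) := by
    have l1 : (X - C a) * A * (derivative P * Q - P * derivative Q) =
        A * (((X - C a) * derivative P) * Q - P * ((X - C a) * derivative Q)) := by ring
    rw [l1, e1, e2] at h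
    have l2 : A * ((C (i : ℚ) * P + (X - C a) ^ (i + 1) * derivative R) * Q -
        P * (C (k : ℚ) * Q + (X - C a) ^ (k + 1) * derivative S)) =
        (X - C a) ^ (i + k) * (A * ((C (i : ℚ) - C (k : ℚ)) * (R * S) +
          (X - C a) * (derivative R * S - R * derivative S))) := by
      generalize hd1 : derivative R = R' at *
      generalize hd2 : derivative S = S' at *
      rw [hR, hS]
      ring
    have l3 : B * P * Q = (X - C a) ^ (i + k) * (B * (R * S)) := by
      conv_lhs => rw [hR, hS]
      ring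
    rw [← l2, h, l3]
  have h3 := mul_left_cancel₀ hne h2
  have h4 := congrArg (eval a) h3
  simp only [eval_mul, eval_add, eval_sub, eval_C, eval_X, sub_self, zero_mul, add_zero] at h4
  have hRa' : eval a R ≠ 0 := fun h0 => hRa (dvd_iff_isRoot.2 h0)
  have hSa' : eval a S ≠ 0 := fun h0 => hSa (dvd_iff_isRoot.2 h0)
  refine ⟨(i : ℤ) - k, ?_⟩
  have h5 : eval a R * eval a S ≠ 0 := mul_ne_zero hRa' hSa'
  apply mul_right_cancel₀ h5
  push_cast
  linear_combination h4

theorem log : Pool.Agent.Q189.IB.S_LOG := by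
  intro s t P Q hP hQ h
  constructor
  · obtain ⟨z, hz⟩ := key 0 (1 - X) (C (-s) + C (s + t) * X) P Q hP hQ (by
      rw [C_0, sub_zero]
      exact h)
    simp at hz
    exact ⟨-z, by push_cast; linarith⟩
  · obtain ⟨z, hz⟩ := key 1 (-X) (C (-s) + C (s + t) * X) P Q hP hQ (by
      rw [← h, C_1]
      ring)
    simp at hz
    exact ⟨-z, by push_cast; linarith⟩

end Pool.Agent.Q241.IB
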